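import Pool.Agent.Helper92.Ru.GoalsV

/-!
# Packet BadUnion (V2) for MP_d1d051_nt: badness is partition regular
-/

set_option autoImplicit false

namespace Pool.Agent.Helper90.Ru
open Pool.Agent.Helper92.Ru

theorem badUnion : BadUnion := by
  intro k _ _ T d n q κ ι _ F hbad
  by_contra hcon
  push Not at hcon
  have h1 : ∀ i, ∃ C' : ℝ, ∀ P ∈ F i, P.tot ≤ κ * Real.log P.H + C' := by
    intro i
    have h2 := hcon i
    unfold Bad at h2
    push Not at h2
    exact h2
  choose C hC using h1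
  obtain ⟨M, hM⟩ := (Set.finite_range C).bddAbove
  obtain ⟨P, hP, hPt⟩ := hbad M
  obtain ⟨i, hi⟩ := Set.mem_iUnion.1 hP
  have h3 := hC i P hi
  have h4 : C i ≤ M := hM ⟨i, rfl⟩
  linarith

end Pool.Agent.Helper90.Ru
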