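import Pool.Agent.Helper92.Ru.GoalsW

/-! Packet 1630 of MP_d1d051_nt: `StarR → Extract` -/

set_option autoImplicit false

open MvPolynomial

namespace Pool.Agent.Helper90.Ru

open Pool.Agent.Helper92.Ru

/-- block degrees given by `w` -/
def BHom {k : Type} [Field k] {d n : ℕ} (w : Fin d → ℕ) (f : BB k d n) : Prop :=
  ∀ e ∈ f.support, ∀ j : Fin d, ∑ i : Fin (n + 1), e (j, i) = w j

theorem BHom.mul {k : Type} [Field k] {d n : ℕ} {w w' : Fin d → ℕ} {f g : BB k d n}
    (hf : BHom w f) (hg : BHom w' g) : BHom (w + w') (f * g) := by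
  classical
  intro e he j
  have h := MvPolynomial.support_mul f g he
  rcases Finset.mem_add.1 h with ⟨e1, h1, e2, h2, rfl⟩
  rw [Pi.add_apply, ← hf e1 h1 j, ← hg e2 h2 j, ← Finset.sum_add_distrib]
  rfl

theorem BHom.one {k : Type} [Field k] {d n : ℕ} : BHom (0 : Fin d → ℕ) (1 : BB k d n) := by
  classical
  intro e he j
  have h : e = 0 := by
    by_contra hne
    rw [MvPolynomial.mem_support_iff] at he
    apply he
    rw [MvPolynomial.coeff_one, if_neg (Ne.symm hne)]
  subst h
  simp

theorem BHom.prod {k : Type} [Field k] {d n : ℕ} {ι : Type} (s : Finset ι)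
    (w : ι → Fin d → ℕ) (f : ι → BB k d n) (h : ∀ i ∈ s, BHom (w i) (f i)) :
    BHom (∑ i ∈ s, w i) (∏ i ∈ s, f i) := by
  classical
  induction s using Finset.induction_on with
  | empty => simpa using BHom.one
  | insert x s hx ih =>
    rw [Finset.sum_insert hx, Finset.prod_insert hx]
    exact (h x (Finset.mem_insert_self _ _)).mul
      (ih fun i hi => h i (Finset.mem_insert_of_mem hi))

theorem BHom.lin {k : Type} [Field k] {d n : ℕ} (a : Fin (n + 1) → k) (j : Fin d) :
    BHom (Pi.single j 1) (∑ t : Fin (n + 1), C (a t) * X (j, t) : BB k d n) := by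
  classical
  intro e he j'
  have h := MvPolynomial.support_sum he
  rcases Finset.mem_biUnion.1 h with ⟨t, -, ht⟩
  have h2 : e = Finsupp.single (j, t) 1 := by
    by_contra hne
    rw [MvPolynomial.mem_support_iff] at ht
    apply ht
    rw [MvPolynomial.coeff_C_mul, MvPolynomial.coeff_X', if_neg (Ne.symm hne), mul_zero]
  subst h2
  by_cases hj : j' = j
  · subst hj
    rw [Pi.single_eq_same, Finset.sum_eq_single t]
    · simp
    · intro b _ hb
      rw [Finsupp.single_apply, if_neg]
      intro hh
      exact hb (Prod.ext_iff.1 hh).2.symm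
    · intro h; exact absurd (Finset.mem_univ _) h
  · rw [Pi.single_eq_of_ne hj]
    apply Finset.sum_eq_zero
    intro i _
    rw [Finsupp.single_apply, if_neg]
    intro hh
    exact hj (Prod.ext_iff.1 hh).1.symm

theorem MHom_iff {k : Type} [Field k] {d n m : ℕ} {f : BB k d n} :
    MHom m f ↔ BHom (fun _ => m) f := Iff.rfl

theorem Rm_mul {k : Type} [Field k] {d n m m' : ℕ} {f g : BB k d n} (hf : f ∈ Rm k d n m)
    (hg : g ∈ Rm k d n m') : f * g ∈ Rm k d n (m + m') := by
  refine ⟨?_, fun π => ?_⟩
  · exact BHom.mul (w := fun _ => m) (w' := fun _ => m') hf.1 hg.1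
  · rw [map_mul, hf.2, hg.2]

theorem Rm_one {k : Type} [Field k] {d n : ℕ} : (1 : BB k d n) ∈ Rm k d n 0 :=
  ⟨BHom.one, fun π => map_one _⟩

theorem Nl_mem {k : Type} [Field k] {d n : ℕ} (a : Fin (n + 1) → k) :
    (Nl d a : BB k d n) ∈ Rm k d n 1 := by
  classical
  refine ⟨?_, fun π => ?_⟩
  · have h := BHom.prod (k := k) (n := n) (Finset.univ : Finset (Fin d))
      (fun j => Pi.single j 1) (fun j => ∑ t : Fin (n + 1), C (a t) * X (j, t))
      (fun j _ => BHom.lin a j)
    have h2 : (∑ j : Fin d, (Pi.single j 1 : Fin d → ℕ)) = fun _ => 1 := by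
      funext j'
      rw [Finset.sum_apply, Finset.sum_eq_single j']
      · simp
      · intro b _ hb; rw [Pi.single_eq_of_ne hb.symm]
      · intro h; exact absurd (Finset.mem_univ _) h
    rw [h2] at h
    exact h
  · unfold Nl permB
    rw [map_prod]
    simp only [map_sum, map_mul, rename_C, rename_X]
    exact Equiv.prod_comp π (fun j => ∑ t : Fin (n + 1), (C (a t) * X (j, t) : BB k d n))

theorem Rm_pow {k : Type} [Field k] {d n : ℕ} (a : Fin (n + 1) → k) (e : ℕ) :
    (Nl d a : BB k d n) ^ e ∈ Rm k d n e := by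
  induction e with
  | zero => simpa using Rm_one
  | succ e ih => rw [pow_succ]; exact Rm_mul ih (Nl_mem a)

theorem Rm_prod {k : Type} [Field k] {d n q : ℕ} (a : Fin q → Fin (n + 1) → k)
    (α : Fin q → ℕ) (s : Finset (Fin q)) :
    (∏ i ∈ s, (Nl d (a i) : BB k d n) ^ α i) ∈ Rm k d n (∑ i ∈ s, α i) := by
  classical
  induction s using Finset.induction_on with
  | empty => simpa using Rm_one
  | insert x s hx ih =>
    rw [Finset.sum_insert hx, Finset.prod_insert hx]
    exact Rm_mul (Rm_pow _ _) ih

/-- the iterated products -/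
def GenS (k : Type) [Field k] (d n q : ℕ) (a : Fin q → Fin (n + 1) → k) (T : Finset (Fin q))
    (j r : ℕ) : Set (BB k d n) :=
  {f | ∃ (γ : Fin q → ℕ) (g : BB k d n), (∀ i ∉ T, γ i = 0) ∧ ∑ i, γ i = j ∧
    g ∈ Rm k d n r ∧ f = (∏ i, Nl d (a i) ^ γ i) * g}

theorem iter (hS : StarR) (k : Type) [Field k] [CharZero k] (d n q : ℕ)
    (a : Fin q → Fin (n + 1) → k) (hd : 1 ≤ d) (hG : GP a) (T : Finset (Fin q))
    (hT : d * n + 1 ≤ T.card) : ∀ (j r : ℕ), q ≤ r → ∀ g ∈ Rm k d n (r + j),
      g ∈ Submodule.span k (GenS k d n q a T j r) := by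
  classical
  intro j
  induction j with
  | zero =>
    intro r _ g hg
    apply Submodule.subset_span
    exact ⟨0, g, fun _ _ => rfl, by simp, hg, by simp⟩
  | succ j ih =>
    intro r hr g hg
    obtain ⟨g', hg', hsum⟩ := hS k d n q a hd hG T hT (r + (j + 1)) (by omega) g hg
    rw [hsum]
    apply Submodule.sum_mem
    intro i hi
    have h1 := ih r hr (g' i) (by
      have := hg' i
      rwa [show r + (j + 1) - 1 = r + j by omega] at this)
    -- multiply by the norm form
    have h2 : ∀ x ∈ Submodule.span k (GenS k d n q a T j r),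
        Nl d (a i) * x ∈ Submodule.span k (GenS k d n q a T (j + 1) r) := by
      intro x hx
      induction hx using Submodule.span_induction with
      | mem x hx =>
        obtain ⟨γ, g, h3, h4, h5, rfl⟩ := hx
        apply Submodule.subset_span
        refine ⟨fun l => γ l + if l = i then 1 else 0, g, ?_, ?_, h5, ?_⟩
        · intro l hl
          have : l ≠ i := by rintro rfl; exact hl hi
          simp [h3 l hl, this]
        · rw [Finset.sum_add_distrib, h4]
          simp
        · simp only [pow_add]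
          rw [Finset.prod_mul_distrib]
          have : (∏ l : Fin q, (Nl d (a l) : BB k d n) ^ (if l = i then 1 else 0)) = Nl d (a i) := by
            rw [Finset.prod_eq_single i]
            · simp
            · intro b _ hb; simp [hb]
            · intro h; exact absurd (Finset.mem_univ _) h
          rw [this]
          ring
      | zero => simp
      | add x y _ _ hx hy => rw [mul_add]; exact Submodule.add_mem _ hx hy
      | smul c x _ hx => rw [mul_smul_comm]; exact Submodule.smul_mem _ c hx
    exact h2 _ h1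

theorem extract (hS : StarR) : Extract := by
  classical
  intro k _ _ d n q a hd hG z β m t hqm hT
  unfold Fil
  rw [Submodule.span_le]
  rintro f ⟨α, g, hα, ht, hg, rfl⟩
  set T := Finset.univ.filter (fun i => β ≤ z i) with hTdef
  have hmemT : ∀ i, i ∈ T ↔ β ≤ z i := by intro i; simp [hTdef]
  -- split
  set α1 : Fin q → ℕ := fun i => if β ≤ z i then α i else 0 with hα1
  set α2 : Fin q → ℕ := fun i => if β ≤ z i then 0 else α i with hα2
  have hsplit : ∀ i, α i = α1 i + α2 i := by
    intro i; simp only [hα1, hα2]; split_ifs <;> simp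
  have hsum : ∑ i, α i = ∑ i, α1 i + ∑ i, α2 i := by
    rw [← Finset.sum_add_distrib]; exact Finset.sum_congr rfl fun i _ => hsplit i
  set g1 : BB k d n := (∏ i, Nl d (a i) ^ α2 i) * g with hg1
  have hg1m : g1 ∈ Rm k d n (m - ∑ i, α1 i) := by
    have := Rm_mul (Rm_prod (k := k) a α2 Finset.univ) hg
    rwa [show (∑ i, α2 i) + (m - ∑ i, α i) = m - ∑ i, α1 i by omega] at this
  have hprod : (∏ i, (Nl d (a i) : BB k d n) ^ α i) * g = (∏ i, Nl d (a i) ^ α1 i) * g1 := by
    rw [hg1, ← mul_assoc, ← Finset.prod_mul_distrib]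
    congr 1
    apply Finset.prod_congr rfl
    intro i _
    rw [← pow_add, ← hsplit i]
  rw [SetLike.mem_coe, hprod]
  have ht' : t ≤ ∑ i, α1 i * (z i - β) := by
    refine ht.trans (Finset.sum_le_sum fun i _ => ?_)
    simp only [hα1]
    split_ifs with h
    · exact le_rfl
    · have : z i - β = 0 := by omega
      simp [this]
  -- general estimate
  have hest : ∀ γ : Fin q → ℕ, (∀ i ∉ T, γ i = 0) →
      t + β * (∑ i, α1 i + ∑ i, γ i) ≤ ∑ i, (α1 i + γ i) * z i := by
    intro γ hγ
    calc t + β * (∑ i, α1 i + ∑ i, γ i)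
        ≤ ∑ i, α1 i * (z i - β) + β * (∑ i, α1 i + ∑ i, γ i) := Nat.add_le_add_right ht' _
      _ = ∑ i, (α1 i * (z i - β) + β * (α1 i + γ i)) := by
          rw [← Finset.sum_add_distrib, Finset.mul_sum, ← Finset.sum_add_distrib]
      _ ≤ ∑ i, (α1 i + γ i) * z i := by
          apply Finset.sum_le_sum
          intro i _
          by_cases h : β ≤ z i
          · obtain ⟨c, hc⟩ := Nat.exists_eq_add_of_le h
            rw [hc, Nat.add_sub_cancel_left]
            nlinarith [Nat.zero_le (γ i * c)]
          · have h1 : γ i = 0 := hγ i (by rw [hmemT]; exact h)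
            have h2 : α1 i = 0 := by simp [hα1, h]
            simp [h1, h2]
  have hA : ∑ i, α1 i ≤ m := by omega
  by_cases hcase : q ≤ m - ∑ i, α1 i
  · -- iterate
    have h1 := iter hS k d n q a hd hG T hT (m - ∑ i, α1 i - q) q le_rfl g1
      (by rwa [show q + (m - ∑ i, α1 i - q) = m - ∑ i, α1 i by omega])
    generalize hx : g1 = x at h1 ⊢
    clear hx
    induction h1 using Submodule.span_induction with
    | mem x hx =>
      obtain ⟨γ, g', h3, h4, h5, rfl⟩ := hx
      apply Submodule.subset_span
      refine ⟨fun i => α1 i + γ i, g', ?_, ?_, ?_, ?_⟩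
      · rw [Finset.sum_add_distrib, h4]; omega
      · refine le_trans (Nat.add_le_add_left (Nat.mul_le_mul_left β ?_) t) (hest γ h3)
        rw [h4]; omega
      · rw [Finset.sum_add_distrib, h4,
          show m - (∑ i, α1 i + (m - ∑ i, α1 i - q)) = q by omega]
        exact h5
      · rw [← mul_assoc, ← Finset.prod_mul_distrib]
        congr 1
        apply Finset.prod_congr rfl
        intro i _
        rw [pow_add]
    | zero => simp
    | add x y _ _ hx hy => rw [mul_add]; exact Submodule.add_mem _ hx hy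
    | smul c x _ hx => rw [mul_smul_comm]; exact Submodule.smul_mem _ c hx
  · apply Submodule.subset_span
    refine ⟨α1, g1, hA, ?_, hg1m, rfl⟩
    have h := hest 0 (fun _ _ => rfl)
    simp only [Pi.zero_apply, Finset.sum_const_zero, add_zero] at h
    refine le_trans (Nat.add_le_add_left (Nat.mul_le_mul_left β ?_) t) h
    omega

end Pool.Agent.Helper90.Ru
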