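import Pool.Agent.Helper92.Ru.GoalsH

/-!
# Packet Cheb (H1) for MP_d1d051_nt: most exponents are balanced
-/

set_option autoImplicit false

open Finset

namespace Pool.Agent.Helper90.Ru
open Pool.Agent.Helper92.Ru

lemma sum_swap {ι : Type} [Fintype ι] [DecidableEq ι] (n : ℕ) (i i' : ι) :
    ∑ j ∈ piAntidiag (univ : Finset ι) n, (j i : ℝ) =
      ∑ j ∈ piAntidiag (univ : Finset ι) n, (j i' : ℝ) := by
  refine Finset.sum_nbij' (fun j => j ∘ Equiv.swap i i') (fun j => j ∘ Equiv.swap i i')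
    ?_ ?_ ?_ ?_ ?_
  · intro j hj
    simp only [mem_piAntidiag] at hj ⊢
    refine ⟨?_, by simp⟩
    rw [← hj.1]
    exact Equiv.sum_comp (Equiv.swap i i') j
  · intro j hj
    simp only [mem_piAntidiag] at hj ⊢
    refine ⟨?_, by simp⟩
    rw [← hj.1]
    exact Equiv.sum_comp (Equiv.swap i i') j
  · intro j _
    funext x
    simp
  · intro j _
    funext x
    simp
  · intro j _
    simp

/-- the centred variable of a block -/
noncomputable def yv {ι : Type} [Fintype ι] (n : ℕ) (i : ι) (j : ι → ℕ) : ℝ :=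
  (j i : ℝ) / (n : ℝ) - 1 / (Fintype.card ι : ℝ)

lemma sum_yv {ι : Type} [Fintype ι] [DecidableEq ι] [Nonempty ι] (n : ℕ) (hn : 1 ≤ n) (i : ι) :
    ∑ j ∈ piAntidiag (univ : Finset ι) n, yv n i j = 0 := by
  have hN : (0 : ℝ) < (Fintype.card ι : ℝ) := by exact_mod_cast Fintype.card_pos
  have hn' : (0 : ℝ) < (n : ℝ) := by exact_mod_cast hn
  have h1 : ∑ i' : ι, ∑ j ∈ piAntidiag (univ : Finset ι) n, (j i' : ℝ) =
      ((piAntidiag (univ : Finset ι) n).card : ℝ) * n := by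
    rw [Finset.sum_comm]
    rw [Finset.sum_congr rfl (fun j hj => ?_), Finset.sum_const, nsmul_eq_mul]
    simp only [mem_piAntidiag] at hj
    rw [← hj.1]
    push_cast
    rfl
  have h2 : ∑ i' : ι, ∑ j ∈ piAntidiag (univ : Finset ι) n, (j i' : ℝ) =
      (Fintype.card ι : ℝ) * ∑ j ∈ piAntidiag (univ : Finset ι) n, (j i : ℝ) := by
    rw [Finset.sum_congr rfl (fun i' _ => sum_swap n i' i), Finset.sum_const, nsmul_eq_mul,
      Finset.card_univ]
  have h3 : ∑ j ∈ piAntidiag (univ : Finset ι) n, (j i : ℝ) =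
      ((piAntidiag (univ : Finset ι) n).card : ℝ) * n / (Fintype.card ι : ℝ) := by
    rw [eq_div_iff hN.ne', mul_comm, ← h2, h1]
  unfold yv
  rw [Finset.sum_sub_distrib, ← Finset.sum_div, h3, Finset.sum_const, nsmul_eq_mul]
  field_simp
  ring

lemma sum_cross {m : ℕ} {ι : Type} [Fintype ι] [DecidableEq ι] [Nonempty ι] (r : Fin m → ℕ)
    (hr : ∀ h, 1 ≤ r h) (i : ι) (h h' : Fin m) (hh : h ≠ h') :
    ∑ J ∈ mons ι r, yv (r h) i (J h) * yv (r h') i (J h') = 0 := by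
  have key := Finset.prod_univ_sum (fun l : Fin m => piAntidiag (univ : Finset ι) (r l))
    (fun l j => if l = h then yv (r h) i j else if l = h' then yv (r h') i j else (1 : ℝ))
  rw [Finset.prod_eq_zero (i := h) (Finset.mem_univ h) (by
    simp only [if_true]
    exact sum_yv (r h) (hr h) i)] at key
  rw [mons, key]
  refine Finset.sum_congr rfl (fun J _ => ?_)
  rw [← Finset.mul_prod_erase univ _ (Finset.mem_univ h)]
  rw [← Finset.mul_prod_erase (univ.erase h) _ (Finset.mem_erase.2 ⟨hh.symm, Finset.mem_univ h'⟩)]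
  rw [Finset.prod_eq_one]
  · simp [hh.symm]
  · intro l hl
    simp only [Finset.mem_erase, Finset.mem_univ, and_true] at hl
    simp [hl.1, hl.2]

lemma yv_sq {ι : Type} [Fintype ι] [DecidableEq ι] [Nonempty ι] (n : ℕ) (hn : 1 ≤ n) (i : ι)
    (j : ι → ℕ) (hj : j ∈ piAntidiag (univ : Finset ι) n) : yv n i j * yv n i j ≤ 1 := by
  have hN : (1 : ℝ) ≤ (Fintype.card ι : ℝ) := by exact_mod_cast Fintype.card_pos
  have hn' : (0 : ℝ) < (n : ℝ) := by exact_mod_cast hn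
  have hji : j i ≤ n := by
    simp only [mem_piAntidiag] at hj
    rw [← hj.1]
    exact Finset.single_le_sum (f := j) (fun _ _ => Nat.zero_le _) (Finset.mem_univ i)
  have h1 : (j i : ℝ) / n ≤ 1 := by
    rw [div_le_one hn']
    exact_mod_cast hji
  have h2 : (0 : ℝ) ≤ (j i : ℝ) / n := by positivity
  have h3 : 1 / (Fintype.card ι : ℝ) ≤ 1 := by
    rw [div_le_one (by linarith)]
    exact hN
  have h4 : 0 ≤ 1 / (Fintype.card ι : ℝ) := by positivity
  have h5 : |yv n i j| ≤ 1 := by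
    unfold yv
    rw [abs_le]
    constructor <;> linarith
  rw [← abs_mul_abs_self]
  nlinarith [abs_nonneg (yv n i j)]

lemma sum_sq {m : ℕ} {ι : Type} [Fintype ι] [DecidableEq ι] [Nonempty ι] (r : Fin m → ℕ)
    (hr : ∀ h, 1 ≤ r h) (i : ι) :
    ∑ J ∈ mons ι r, (∑ h, yv (r h) i (J h)) ^ 2 ≤ (m : ℝ) * ((mons ι r).card : ℝ) := by
  have h1 : ∑ J ∈ mons ι r, (∑ h, yv (r h) i (J h)) ^ 2 =
      ∑ h, ∑ h', ∑ J ∈ mons ι r, yv (r h) i (J h) * yv (r h') i (J h') := by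
    calc ∑ J ∈ mons ι r, (∑ h, yv (r h) i (J h)) ^ 2
        = ∑ J ∈ mons ι r, ∑ h, ∑ h', yv (r h) i (J h) * yv (r h') i (J h') := by
          refine Finset.sum_congr rfl (fun J _ => ?_)
          rw [sq, Finset.sum_mul_sum]
      _ = ∑ h, ∑ J ∈ mons ι r, ∑ h', yv (r h) i (J h) * yv (r h') i (J h') :=
          Finset.sum_comm
      _ = _ := by
          refine Finset.sum_congr rfl (fun h _ => ?_)
          exact Finset.sum_comm
  have h2 : ∀ h : Fin m, ∑ h', ∑ J ∈ mons ι r, yv (r h) i (J h) * yv (r h') i (J h') ≤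
      ((mons ι r).card : ℝ) := by
    intro h
    rw [Finset.sum_eq_single h (fun h' _ hh' => sum_cross r hr i h h' hh'.symm)
      (fun hh => absurd (Finset.mem_univ h) hh)]
    calc ∑ J ∈ mons ι r, yv (r h) i (J h) * yv (r h) i (J h) ≤ ∑ J ∈ mons ι r, (1 : ℝ) := by
          refine Finset.sum_le_sum (fun J hJ => ?_)
          refine yv_sq (r h) (hr h) i (J h) ?_
          exact (Fintype.mem_piFinset.1 hJ) h
      _ = _ := by simp
  rw [h1]
  calc ∑ h, ∑ h', ∑ J ∈ mons ι r, yv (r h) i (J h) * yv (r h') i (J h')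
      ≤ ∑ _h : Fin m, ((mons ι r).card : ℝ) := Finset.sum_le_sum (fun h _ => h2 h)
    _ = _ := by simp

theorem cheb : Cheb := by
  intro m ι _ _ _ r ε i hr hε
  rcases Nat.eq_zero_or_pos m with rfl | hm
  · simp
  have hm' : (0 : ℝ) < (m : ℝ) := by exact_mod_cast hm
  have h1 := sum_sq r hr i
  set bad := (mons ι r).filter (fun J : Fin m → ι → ℕ =>
        (m : ℝ) * ε < |∑ h, (J h i : ℝ) / (r h : ℝ) - (m : ℝ) / (Fintype.card ι : ℝ)|) with hbad
  have h2 : ∑ J ∈ bad, ((m : ℝ) * ε) ^ 2 ≤ ∑ J ∈ bad, (∑ h, yv (r h) i (J h)) ^ 2 := by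
    refine Finset.sum_le_sum (fun J hJ => ?_)
    rw [hbad, Finset.mem_filter] at hJ
    have h3 : ∑ h, yv (r h) i (J h) =
        ∑ h, (J h i : ℝ) / (r h : ℝ) - (m : ℝ) / (Fintype.card ι : ℝ) := by
      unfold yv
      rw [Finset.sum_sub_distrib]
      simp [div_eq_mul_inv]
    rw [← h3] at hJ
    rw [← sq_abs (∑ h, yv (r h) i (J h))]
    have h4 : 0 ≤ (m : ℝ) * ε := by positivity
    exact pow_le_pow_left₀ h4 hJ.2.le 2
  have h5 : ∑ J ∈ bad, (∑ h, yv (r h) i (J h)) ^ 2 ≤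
      ∑ J ∈ mons ι r, (∑ h, yv (r h) i (J h)) ^ 2 :=
    Finset.sum_le_sum_of_subset_of_nonneg (Finset.filter_subset _ _) (fun _ _ _ => sq_nonneg _)
  rw [Finset.sum_const, nsmul_eq_mul] at h2
  have h6 : (bad.card : ℝ) * ((m : ℝ) * ε) ^ 2 ≤ (m : ℝ) * ((mons ι r).card : ℝ) :=
    h2.trans (h5.trans h1)
  have h7 : (m : ℝ) * ((m : ℝ) * ε ^ 2 * (bad.card : ℝ)) ≤ (m : ℝ) * ((mons ι r).card : ℝ) := by
    calc (m : ℝ) * ((m : ℝ) * ε ^ 2 * (bad.card : ℝ)) = (bad.card : ℝ) * ((m : ℝ) * ε) ^ 2 := by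
          ring
      _ ≤ _ := h6
  exact le_of_mul_le_mul_left h7 hm'

end Pool.Agent.Helper90.Ru
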